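import Mathlib
import Pool.Agent.H26R2.Bass.Main
import Pool.Agent.H26R2.Bass.Src

/-!
The Bass trace conjecture for groups with a good series.
-/

set_option autoImplicit false

namespace Pool.Agent.Results.MP_7903c7_al.GoodSeriesGroups

open Pool.Agent.H26R2.Bass (Admissible BassFor PChainFin FGLinear LinearNonUnit VirtResP AccCyclic)
open Pool.Agent.H26R2.IdemLI (ChainFin)

universe u v w

/-- (1) Let `R` be a commutative domain and let `G` be a group such that `G`, or every finitely
generated subgroup of `G`, is `Admissible` for `R`. Then the conjecture holds for `R` and `G`: the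
rank of every idempotent matrix over `R[G]` vanishes at all `g` whose order (`0` if infinite) is not
a unit in `R`. Here `G` is admissible if it has a normal subgroup `N` such that
(a) `N` has a finite series of normal subgroups `1 = S_0 ≤ S_1 ≤ … ≤ S_k = N` of `G` whose factors
`S_{i+1}/S_i ≤ G/S_i` are periodic, or have finite conjugacy classes in `G/S_i`, or have
centralisers of elements of infinite order in `G/S_i` with an additive character to the field of
fractions of `R` that does not vanish at the element, or satisfy `PChainFin p` for a prime `p` that
is not a unit in `R`, or, if `R` has characteristic zero, are abelian of finite rank or satisfy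
`ChainFin`;
(b) all elements `h` of finitely generated subgroups `H` of `G` without nontrivial powers in `N` have
an image `a` in some quotient `Q` of `H` whose centraliser has such a character, or which is not
conjugate to `a ^ p ^ j`, `j ≥ 1`, for some prime `p` that is not a unit in `R`, or, if `R` has
characteristic zero, which is not almost divisible.
(2) `ChainFin A` holds for the groups `A` which are finitely generated and linear over a field of
characteristic zero, or virtually residually `p` for infinitely many primes `p`, or satisfy the
ascending chain condition on cyclic subgroups.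
(3) `PChainFin p A` holds for the groups `A` which are linear over a finitely generated domain in
which `p` is not a unit, or virtually residually `p`, or satisfy the ascending chain condition on
cyclic subgroups. -/
theorem result :
    (∀ (R : Type u) [CommRing R] [IsDomain R] (G : Type v) [Group G],
      (Admissible R G ∨ ∀ H : Subgroup G, H.FG → Admissible R H) → BassFor R G) ∧
    (∀ (A : Type v) [Group A], (FGLinear.{v, w} A ∨
      (∀ m : ℕ, ∃ p : ℕ, p.Prime ∧ m < p ∧ VirtResP p A) ∨ AccCyclic A) → ChainFin A) ∧
    (∀ p : ℕ, p.Prime → ∀ (A : Type v) [Group A],
      (LinearNonUnit.{v, w} p A ∨ VirtResP p A ∨ AccCyclic A) → PChainFin p A) := by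
  refine ⟨?_, ?_, ?_⟩
  · intro R _ _ G _ hG n A hA g hg
    exact Pool.Agent.H26R2.Bass.bass_main hG A hA g hg
  · intro A _ h
    rcases h with ⟨hfg, F, _, _, d, ρ, hρ⟩ | h | h
    · exact Pool.Agent.H26R2.IdemLI.chainFin_of_rootBounded A
        (Pool.Agent.H26R2.IdemLI.rootBounded_linear A hfg ρ hρ)
    · exact Pool.Agent.H26R2.IdemLI.chainFin_of_rootBounded A
        (Pool.Agent.H26R2.IdemLI.rootBounded_of_vres A h)
    · exact Pool.Agent.H26R2.IdemLI.chainFin_of_acc A h
  · intro p hp A _ h
    rcases h with ⟨S, _, _, hS, d, ρ, hpS, hρ⟩ | ⟨P, hP, hres⟩ | h
    · exact Pool.Agent.H26R2.Bass.pChainFin_of_linear hp A S hS hpS d ρ hρ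
    · exact Pool.Agent.H26R2.Bass.pChainFin_of_vres hp A P hP hres
    · exact Pool.Agent.H26R2.Bass.pChainFin_of_acc hp A h

end Pool.Agent.Results.MP_7903c7_al.GoodSeriesGroups
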