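import Mathlib
import Pool.Agent.H26R2.Bass.Ext

/-!
The Bass trace conjecture over the integers lifts through normal subgroups.
-/

set_option autoImplicit false

namespace Pool.Agent.Results.MP_7903c7_al.LiftingOverIntegers

open Pool.Agent.H26R2.Bass (BassFor NoUnitPrimes LiftSeries)

universe u v

/-- Let `R` be a commutative domain in which no prime number is a unit (for example the ring of
integers of a number field) and let `N` be a normal subgroup of a group `G`. If the Bass trace
conjecture holds for `R` and `G/N`, then it holds for `R` and `G`, provided that `N` has a finite
series `1 = S_0 ≤ S_1 ≤ … ≤ S_k = N` of normal subgroups of `G` such that for all `i` the subgroup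
`A = S_{i+1}/S_i` of `Q = G/S_i` satisfies (a) or (b).
(a) Every element of the centre of `A` has a positive power with finitely many conjugates in `Q`,
and `A` has finite conjugacy classes in `Q`, or is finitely generated and residually finite, or is
residually finite through normal subgroups of `Q`, or `Q/C_Q(A)` satisfies `PChainFin p` for some
prime `p` (for every sequence with `b (i+1) ^ p = b i` the element `b 0` has finite order).
(b) If `s` and `s a` (`s` in `Q`, `a` in `A`) are both fully divisible (conjugate, for every
`k ≥ 1`, to their `k ^ J`-th power for some `J ≥ 1`), then they are conjugate in `Q`. -/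
theorem result (R : Type u) [CommRing R] [IsDomain R] (hR : NoUnitPrimes R) (G : Type v) [Group G]
    (N : Subgroup G) [N.Normal] (hN : LiftSeries N) (hQ : BassFor R (G ⧸ N)) : BassFor R G :=
  Pool.Agent.H26R2.Bass.bass_lift hR N (Pool.Agent.H26R2.Bass.unmixed_of_liftSeries N hN) hQ

end Pool.Agent.Results.MP_7903c7_al.LiftingOverIntegers
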