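import Mathlib
import Pool.Agent.H26R2.Bass.Weak
import Pool.Agent.H26R2.Kadison.Local

/-!
The Bass trace conjecture at the elements of a normal subgroup, and its weak form.
-/

set_option autoImplicit false

namespace Pool.Agent.Results.MP_7903c7_al.WeakFormLifting

open Pool.Agent.H26R2.Bass (NoUnitPrimes)
open Pool.Agent.H26R2.Weak (NoQSeries BassOn SameKaplanskyRank WeakBass)
open Pool.Agent.H26R2.Perf (ResFinite NoQ)
open Pool.Agent.H26R2.Kadison (Source)

universe u v w

/-- Let `R` be a commutative domain in which no prime number is a unit (for example the ring of
integers of a number field), and let `N` be a normal subgroup of a group `G` which has a finite series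
of normal subgroups of `G` whose factors `F` satisfy `NoQ`: for every sequence in `F` with
`b (i+1) ^ (i+1) = b i` the element `b 0` has finite order. Nothing is assumed on `G/N`.

(1) `BassOn R N`: the rank of every idempotent matrix over `R[G]` vanishes at all elements `g ≠ 1`
of `N`.
(2) `SameKaplanskyRank R N`: the coefficient at `1` of the trace of every idempotent matrix over
`R[G]` is the same as for its image over `R[G/N]`.
(3) The weak form of the conjecture (the coefficient at `1` of the trace is the sum of all
coefficients of the trace, for all idempotent matrices) for `R` and `G/N` implies that for `R` and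
`G`.
(4) `NoQ A` holds if `A` is residually finite, or finitely generated and linear over a field of
characteristic zero, or virtually residually `p` for infinitely many primes `p`, or satisfies the
ascending chain condition on cyclic subgroups. -/
theorem result :
    (∀ (R : Type u) [CommRing R] [IsDomain R], NoUnitPrimes R →
      ∀ (G : Type v) [Group G] (N : Subgroup G) [N.Normal], NoQSeries N →
        BassOn R N ∧ SameKaplanskyRank R N ∧ (WeakBass R (G ⧸ N) → WeakBass R G)) ∧
    (∀ (A : Type v) [Group A], (ResFinite A ∨ Source.{v, w} A) → NoQ A) := by
  refine ⟨?_, ?_⟩
  · intro R _ _ hR G _ N _ hN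
    exact ⟨Pool.Agent.H26R2.Weak.bassOn hR N hN, Pool.Agent.H26R2.Weak.sameRank hR N hN,
      Pool.Agent.H26R2.Weak.weak_lift hR N hN⟩
  · rintro A _ (h | h)
    · exact Pool.Agent.H26R2.Perf.noQ_of_resFinite h
    · exact Pool.Agent.H26R2.Perf.noQ_of_chainFin
        (Pool.Agent.H26R2.Kadison.chainFin_of_source A h)

end Pool.Agent.Results.MP_7903c7_al.WeakFormLifting
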